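import Pool.Agent.H622R2.MatGraph
import Pool.Agent.H622R2.Base
import Pool.Agent.NPC.Sat2

/-!
# Locating-dominating coalitions: the graph of a hypergraph
-/

set_option autoImplicit false

namespace Pool.Agent.X248.LD

open Pool.Agent.NPC Pool.Agent.H622R2

section Defs

variable {V : Type} (G : SimpleGraph V)

/-- A locating-dominating set: every vertex outside `D` has a neighbour in `D`, and different
vertices outside `D` have different sets of neighbours in `D`. -/
def IsLD (D : Set V) : Prop :=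
  (∀ v, v ∉ D → ∃ u ∈ D, G.Adj v u) ∧
    ∀ u, u ∉ D → ∀ v, v ∉ D → u ≠ v → G.neighborSet u ∩ D ≠ G.neighborSet v ∩ D

/-- `X` and `Y` form an LD-coalition (for disjoint `X`, `Y`). -/
def Coalition (X Y : Set V) : Prop := ¬ IsLD G X ∧ ¬ IsLD G Y ∧ IsLD G (X ∪ Y)

/-- The fibres of `f` form an LDC-partition with `m` parts: no part is an LD-set and every part
forms an LD-coalition with another part. -/
def IsLDC (m : ℕ) (f : V → Fin m) : Prop :=
  Function.Surjective f ∧ ∀ i, ¬ IsLD G (f ⁻¹' {i}) ∧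
    ∃ j, j ≠ i ∧ Coalition G (f ⁻¹' {i}) (f ⁻¹' {j})

/-- `C_L(G) ≥ k`: there is an LDC-partition with at least `k` parts. -/
def CLge (k : ℕ) : Prop := ∃ m, k ≤ m ∧ ∃ f : V → Fin m, IsLDC G m f

end Defs

section Iso

variable {V W : Type} {G : SimpleGraph V} {H : SimpleGraph W}

theorem IsLD.of_iso (e : G ≃g H) {D : Set W} (h : IsLD H D) : IsLD G (e ⁻¹' D) := by
  refine ⟨fun v hv => ?_, fun u hu v hv huv heq => ?_⟩
  · obtain ⟨w, hw, hvw⟩ := h.1 (e v) hv
    refine ⟨e.symm w, ?_, ?_⟩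
    · show e (e.symm w) ∈ D
      rwa [e.apply_symm_apply]
    · rw [← e.map_adj_iff, e.apply_symm_apply]
      exact hvw
  · refine h.2 (e u) hu (e v) hv (fun h' => huv (e.injective h')) ?_
    ext w
    have := Set.ext_iff.1 heq (e.symm w)
    simp only [Set.mem_inter_iff, SimpleGraph.mem_neighborSet, Set.mem_preimage,
      e.apply_symm_apply] at this ⊢
    rwa [← e.map_adj_iff, ← e.map_adj_iff, e.apply_symm_apply] at this

theorem isLD_iso (e : G ≃g H) {D : Set W} : IsLD G (e ⁻¹' D) ↔ IsLD H D := by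
  refine ⟨fun h => ?_, IsLD.of_iso e⟩
  have := IsLD.of_iso e.symm h
  have h2 : e.symm ⁻¹' (e ⁻¹' D) = D := by
    ext w
    simp
  rwa [h2] at this

theorem CLge.of_iso (e : G ≃g H) {k : ℕ} (h : CLge H k) : CLge G k := by
  obtain ⟨m, hm, f, hf, hi⟩ := h
  refine ⟨m, hm, fun v => f (e v), fun i => ?_, fun i => ?_⟩
  · obtain ⟨w, hw⟩ := hf i
    exact ⟨e.symm w, by simpa using hw⟩
  · have key : ∀ i, (fun v => f (e v)) ⁻¹' {i} = e ⁻¹' (f ⁻¹' {i}) := fun i => rfl
    obtain ⟨h1, j, hj, h2, h3, h4⟩ := hi i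
    refine ⟨?_, j, hj, ?_, ?_, ?_⟩
    · rw [key, isLD_iso]; exact h1
    · rw [key, isLD_iso]; exact h2
    · rw [key, isLD_iso]; exact h3
    · rw [key, key, ← Set.preimage_union, isLD_iso]; exact h4

theorem clge_iso (e : G ≃g H) {k : ℕ} : CLge G k ↔ CLge H k :=
  ⟨CLge.of_iso e.symm, CLge.of_iso e⟩

end Iso

/-- Labels: kind, number, bit. The kinds are: `0` a point of the hypergraph, `1`, `2` the twins
`q_i`, `r_i` of a point, `3`, `4`, `5` the twins `p_e`, `u_e`, `v_e` of a hyperedge, `6` the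
twins `t`. -/
abbrev Lab := ℕ × ℕ × Bool

/-- The point `i` is in the hyperedge with number `e`. -/
def hasE (E : List (List ℕ)) (e i : ℕ) : Bool := (E.getD e []).any fun j => decide (j = i)

/-- The adjacencies in one direction. -/
def inc (E : List (List ℕ)) (x y : Lab) : Bool :=
  (decide (x.1 = 0) && decide (y.1 = 1) && decide (x.2.1 = y.2.1)) ||
  (decide (x.1 = 1) && decide (y.1 = 2) && decide (x.2.1 = y.2.1)) ||
  (decide (x.1 = 2) && decide (y.1 = 6)) ||
  (decide (x.1 = 3) && (decide (y.1 = 4) || decide (y.1 = 5)) && decide (x.2.1 = y.2.1)) ||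
  (decide (x.1 = 4) && decide (y.1 = 0) && hasE E x.2.1 y.2.1)

/-- Adjacency. -/
def adj (E : List (List ℕ)) (x y : Lab) : Bool := inc E x y || inc E y x

/-- The labels. -/
def labs (n : ℕ) (E : List (List ℕ)) : List Lab :=
  [(6, 0, false), (6, 0, true)] ++
  ((List.range n).flatMap fun i =>
    [(0, i, false), (1, i, false), (1, i, true), (2, i, false), (2, i, true)]) ++
  ((List.range E.length).flatMap fun e =>
    [(3, e, false), (3, e, true), (4, e, false), (4, e, true), (5, e, false), (5, e, true)])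

/-- Validity of labels. -/
def Valid (n : ℕ) (E : List (List ℕ)) (x : Lab) : Prop :=
  (x.1 = 0 ∧ x.2.1 < n ∧ x.2.2 = false) ∨ (x.1 = 1 ∧ x.2.1 < n) ∨ (x.1 = 2 ∧ x.2.1 < n) ∨
  (x.1 = 3 ∧ x.2.1 < E.length) ∨ (x.1 = 4 ∧ x.2.1 < E.length) ∨ (x.1 = 5 ∧ x.2.1 < E.length) ∨
  (x.1 = 6 ∧ x.2.1 = 0)

variable {n : ℕ} {E : List (List ℕ)}

theorem mem_labs {x : Lab} : x ∈ labs n E ↔ Valid n E x := by
  obtain ⟨k, i, b⟩ := x
  unfold labs Valid
  simp only [List.mem_append, List.mem_cons, List.not_mem_nil, or_false,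
    List.mem_range, List.mem_flatMap, Prod.mk.injEq]
  constructor
  · rintro ((h | ⟨j, hj, h⟩) | ⟨j, hj, h⟩)
    · rcases h with ⟨rfl, rfl, rfl⟩ | ⟨rfl, rfl, rfl⟩ <;> simp
    · rcases h with h | h | h | h | h <;> obtain ⟨rfl, rfl, rfl⟩ := h <;> simp [hj]
    · rcases h with h | h | h | h | h | h <;> obtain ⟨rfl, rfl, rfl⟩ := h <;> simp [hj]
  · rintro (⟨rfl, h, rfl⟩ | ⟨rfl, h⟩ | ⟨rfl, h⟩ | ⟨rfl, h⟩ | ⟨rfl, h⟩ | ⟨rfl, h⟩ | ⟨rfl, rfl⟩)
    · exact Or.inl (Or.inr ⟨i, h, by simp⟩)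
    · exact Or.inl (Or.inr ⟨i, h, by cases b <;> simp⟩)
    · exact Or.inl (Or.inr ⟨i, h, by cases b <;> simp⟩)
    · exact Or.inr ⟨i, h, by cases b <;> simp⟩
    · exact Or.inr ⟨i, h, by cases b <;> simp⟩
    · exact Or.inr ⟨i, h, by cases b <;> simp⟩
    · exact Or.inl (Or.inl (by cases b <;> simp))

theorem labs_nodup : (labs n E).Nodup := by
  unfold labs
  rw [List.nodup_append]
  refine ⟨?_, ?_, ?_⟩
  · rw [List.nodup_append]
    refine ⟨by simp, ?_, ?_⟩
    · refine nodup_flatMap_of (fun x : Lab => x.2.1) List.nodup_range (fun i _ => by simp) ?_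
      intro i _ b hb
      simp only [List.mem_cons, List.not_mem_nil, or_false] at hb
      rcases hb with rfl | rfl | rfl | rfl | rfl <;> rfl
    · intro x hx y hy hxy
      subst hxy
      simp only [List.mem_flatMap, List.mem_cons, List.not_mem_nil, or_false] at hy hx
      obtain ⟨i, _, h⟩ := hy
      rcases h with h | h | h | h | h <;> subst h <;> simp at hx
  · refine nodup_flatMap_of (fun x : Lab => x.2.1) List.nodup_range (fun i _ => by simp) ?_
    intro i _ b hb
    simp only [List.mem_cons, List.not_mem_nil, or_false] at hb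
    rcases hb with rfl | rfl | rfl | rfl | rfl | rfl <;> rfl
  · intro x hx y hy hxy
    subst hxy
    simp only [List.mem_flatMap, List.mem_cons, List.not_mem_nil, or_false,
      List.mem_append] at hy hx
    obtain ⟨i, _, h⟩ := hy
    rcases hx with hx | ⟨j, _, hx⟩
    · rcases h with h | h | h | h | h | h <;> subst h <;> simp at hx
    · rcases h with h | h | h | h | h | h <;> subst h <;> simp at hx

theorem adj_symm (u v : Lab) : adj E u v = adj E v u := by
  unfold adj
  rw [Bool.or_comm]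

theorem adj_irrefl (u : Lab) : adj E u u = false := by
  unfold adj inc
  obtain ⟨k, i, b⟩ := u
  rcases k with _ | _ | _ | _ | _ | k <;> simp

/-- The graph. -/
abbrev GG (n : ℕ) (E : List (List ℕ)) : SimpleGraph {x // x ∈ labs n E} :=
  labGraph (labs n E) (adj E)

theorem GG_adj (u v : {x // x ∈ labs n E}) : (GG n E).Adj u v ↔ adj E u.1 v.1 = true := by
  simp only [labGraph]
  rw [adj_symm v.1 u.1, or_self]
  constructor
  · exact fun h => h.2
  · intro h
    refine ⟨?_, h⟩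
    rintro rfl
    rw [adj_irrefl] at h
    exact absurd h (by simp)

/-- The label is in the set. -/
def inS (S : Set {x // x ∈ labs n E}) (x : Lab) : Prop := ∃ h : x ∈ labs n E, (⟨x, h⟩ : {x // x ∈ labs n E}) ∈ S

theorem inS_union {S T : Set {x // x ∈ labs n E}} {x : Lab} :
    inS (S ∪ T) x ↔ inS S x ∨ inS T x := by
  unfold inS
  constructor
  · rintro ⟨h, h' | h'⟩
    · exact Or.inl ⟨h, h'⟩
    · exact Or.inr ⟨h, h'⟩
  · rintro (⟨h, h'⟩ | ⟨h, h'⟩)
    · exact ⟨h, Or.inl h'⟩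
    · exact ⟨h, Or.inr h'⟩

/-- The conditions for a locating-dominating set of `GG`. -/
def Good (S : Set {x // x ∈ labs n E}) : Prop :=
  (∀ k i, 1 ≤ k → (k, i, false) ∈ labs n E → inS S (k, i, false) ∨ inS S (k, i, true)) ∧
  ∀ e, e < E.length → ∀ b b', inS S (4, e, b) ∨ inS S (5, e, b') ∨
    ∃ i, hasE E e i = true ∧ inS S (0, i, false)

/-- Adjacency does not depend on the bits. -/
theorem adj_bit (x : Lab) (k i : ℕ) (b b' : Bool) : adj E x (k, i, b) = adj E x (k, i, b') := rfl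

theorem adj_bit' (x : Lab) (k i : ℕ) (b b' : Bool) : adj E (k, i, b) x = adj E (k, i, b') x := rfl

theorem hasE_lt {e i : ℕ} (h : hasE E e i = true) : e < E.length := by
  by_contra hcon
  unfold hasE at h
  rw [List.getD_eq_default _ _ (by omega)] at h
  simp at h

theorem hasE_iff {e i : ℕ} (he : e < E.length) : hasE E e i = true ↔ i ∈ E[e] := by
  unfold hasE
  rw [List.getD_eq_getElem _ _ he, List.any_eq_true]
  simp

theorem valid_twin {k i : ℕ} (hk : 1 ≤ k) {b b' : Bool} (h : (k, i, b) ∈ labs n E) :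
    (k, i, b') ∈ labs n E := by
  rw [mem_labs] at h ⊢
  unfold Valid at *
  simp only at h ⊢
  omega

/-- `IsLD` implies the conditions. -/
theorem good_of_isLD {S : Set {x // x ∈ labs n E}} (h : IsLD (GG n E) S) : Good S := by
  constructor
  · intro k i hk hv
    by_contra hcon
    push Not at hcon
    have hv' := valid_twin (b' := true) hk hv
    refine h.2 ⟨_, hv⟩ (fun h' => hcon.1 ⟨hv, h'⟩) ⟨_, hv'⟩ (fun h' => hcon.2 ⟨hv', h'⟩) ?_ ?_
    · intro h'
      have := congrArg Subtype.val h'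
      simp at this
    · ext w
      simp only [Set.mem_inter_iff, SimpleGraph.mem_neighborSet, GG_adj]
      rw [adj_bit' w.1 k i false true]
  · intro e he b b'
    by_contra hcon
    push Not at hcon
    obtain ⟨h1, h2, h3⟩ := hcon
    have hv1 : (4, e, b) ∈ labs n E := by rw [mem_labs]; simp [Valid, he]
    have hv2 : (5, e, b') ∈ labs n E := by rw [mem_labs]; simp [Valid, he]
    refine h.2 ⟨_, hv1⟩ (fun h' => h1 ⟨hv1, h'⟩) ⟨_, hv2⟩ (fun h' => h2 ⟨hv2, h'⟩) ?_ ?_
    · intro h'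
      have := congrArg Subtype.val h'
      simp at this
    · ext w
      obtain ⟨⟨k, i, c⟩, hw⟩ := w
      simp only [Set.mem_inter_iff, SimpleGraph.mem_neighborSet, GG_adj]
      refine and_congr_left fun hS => ?_
      have hw' := mem_labs.1 hw
      simp only [Valid] at hw'
      rcases hw' with ⟨rfl, hi, rfl⟩ | ⟨rfl, hi⟩ | ⟨rfl, hi⟩ | ⟨rfl, hi⟩ | ⟨rfl, hi⟩ | ⟨rfl, hi⟩ |
        ⟨rfl, hi⟩
      · have : hasE E e i ≠ true := fun h' => h3 i h' ⟨hw, hS⟩
        simp [adj, inc, this]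
      all_goals simp [adj, inc]

/-- The conditions imply `IsLD`. -/
theorem isLD_of_good (hn : 2 ≤ n) {S : Set {x // x ∈ labs n E}} (h : Good S) :
    IsLD (GG n E) S := by
  have hpair : ∀ k i, 1 ≤ k → (k, i, false) ∈ labs n E →
      ∃ b, ∃ hv : (k, i, b) ∈ labs n E, (⟨(k, i, b), hv⟩ : {x // x ∈ labs n E}) ∈ S := by
    intro k i hk hv
    rcases h.1 k i hk hv with ⟨h1, h2⟩ | ⟨h1, h2⟩
    · exact ⟨_, h1, h2⟩
    · exact ⟨_, h1, h2⟩
  constructor
  · rintro ⟨⟨k, i, b⟩, hv⟩ _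
    have hv' := mem_labs.1 hv
    simp only [Valid] at hv'
    rcases hv' with ⟨rfl, hi, rfl⟩ | ⟨rfl, hi⟩ | ⟨rfl, hi⟩ | ⟨rfl, hi⟩ | ⟨rfl, hi⟩ | ⟨rfl, hi⟩ |
      ⟨rfl, hi⟩
    · obtain ⟨c, hc, hcS⟩ := hpair 1 i (by norm_num) (by rw [mem_labs]; simp [Valid, hi])
      exact ⟨_, hcS, by rw [GG_adj]; simp [adj, inc]⟩
    · obtain ⟨c, hc, hcS⟩ := hpair 2 i (by norm_num) (by rw [mem_labs]; simp [Valid, hi])
      exact ⟨_, hcS, by rw [GG_adj]; simp [adj, inc]⟩
    · obtain ⟨c, hc, hcS⟩ := hpair 1 i (by norm_num) (by rw [mem_labs]; simp [Valid, hi])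
      exact ⟨_, hcS, by rw [GG_adj]; simp [adj, inc]⟩
    · obtain ⟨c, hc, hcS⟩ := hpair 4 i (by norm_num) (by rw [mem_labs]; simp [Valid, hi])
      exact ⟨_, hcS, by rw [GG_adj]; simp [adj, inc]⟩
    · obtain ⟨c, hc, hcS⟩ := hpair 3 i (by norm_num) (by rw [mem_labs]; simp [Valid, hi])
      exact ⟨_, hcS, by rw [GG_adj]; simp [adj, inc]⟩
    · obtain ⟨c, hc, hcS⟩ := hpair 3 i (by norm_num) (by rw [mem_labs]; simp [Valid, hi])
      exact ⟨_, hcS, by rw [GG_adj]; simp [adj, inc]⟩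
    · obtain ⟨c, hc, hcS⟩ := hpair 2 0 (by norm_num) (by rw [mem_labs]; simp [Valid]; omega)
      exact ⟨_, hcS, by rw [GG_adj]; simp [adj, inc]⟩
  · rintro ⟨u, hu⟩ huS ⟨v, hv⟩ hvS huv heq
    have hT : ∀ k i, 1 ≤ k → (k, i, false) ∈ labs n E →
        (adj E u (k, i, false) = true ↔ adj E v (k, i, false) = true) := by
      intro k i hk hki
      obtain ⟨b, hb, hbS⟩ := hpair k i hk hki
      have := Set.ext_iff.1 heq ⟨(k, i, b), hb⟩
      simp only [Set.mem_inter_iff, SimpleGraph.mem_neighborSet, GG_adj, hbS, and_true] at this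
      rw [adj_bit u k i b false, adj_bit v k i b false] at this
      exact this
    have hP : ∀ i, (hi : (0, i, false) ∈ labs n E) →
        (⟨(0, i, false), hi⟩ : {x // x ∈ labs n E}) ∈ S →
        (adj E u (0, i, false) = true ↔ adj E v (0, i, false) = true) := by
      intro i hi hiS
      have := Set.ext_iff.1 heq ⟨(0, i, false), hi⟩
      simp only [Set.mem_inter_iff, SimpleGraph.mem_neighborSet, GG_adj, hiS, and_true] at this
      exact this
    have hne : u ≠ v := fun h' => huv (Subtype.ext h')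
    -- equal kind and number
    have htw : ∀ k i b b', u = (k, i, b) → v = (k, i, b') → False := by
      rintro k i b b' rfl rfl
      have hbb : b ≠ b' := fun h' => hne (by rw [h'])
      have hk : 1 ≤ k := by
        by_contra h0
        have hk0 : k = 0 := by omega
        subst hk0
        have h1 := mem_labs.1 hu
        have h2 := mem_labs.1 hv
        simp only [Valid] at h1 h2
        apply hbb
        have e1 : b = false := by
          rcases h1 with h | h | h | h | h | h | h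
          · exact h.2.2
          all_goals exact absurd h.1 (by norm_num)
        have e2 : b' = false := by
          rcases h2 with h | h | h | h | h | h | h
          · exact h.2.2
          all_goals exact absurd h.1 (by norm_num)
        rw [e1, e2]
      obtain ⟨c, hc, hcS⟩ := hpair k i hk (valid_twin hk hu)
      by_cases hcb : c = b
      · subst hcb
        exact huS hcS
      · have : c = b' := by
          revert hbb hcb
          cases c <;> cases b <;> cases b' <;> simp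
        subst this
        exact hvS hcS
    have h45 : ∀ e b b', (u = (4, e, b) ∧ v = (5, e, b')) ∨ (v = (4, e, b) ∧ u = (5, e, b')) →
        False := by
      rintro e b b' (⟨rfl, rfl⟩ | ⟨rfl, rfl⟩)
      · have he : e < E.length := by
          have := mem_labs.1 hu
          simpa [Valid] using this
        rcases h.2 e he b b' with ⟨h1, h2⟩ | ⟨h1, h2⟩ | ⟨i, hi, h1, h2⟩
        · exact huS h2
        · exact hvS h2
        · have := (hP i h1 h2).1 (by simp [adj, inc, hi])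
          simp [adj, inc] at this
      · have he : e < E.length := by
          have := mem_labs.1 hv
          simpa [Valid] using this
        rcases h.2 e he b b' with ⟨h1, h2⟩ | ⟨h1, h2⟩ | ⟨i, hi, h1, h2⟩
        · exact hvS h2
        · exact huS h2
        · have := (hP i h1 h2).2 (by simp [adj, inc, hi])
          simp [adj, inc] at this
    have hu' := mem_labs.1 hu
    have hv' := mem_labs.1 hv
    obtain ⟨k, i, b⟩ := u
    obtain ⟨l, j, c⟩ := v
    simp only [Valid] at hu' hv'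
    rcases hu' with ⟨rfl, hi, rfl⟩ | ⟨rfl, hi⟩ | ⟨rfl, hi⟩ | ⟨rfl, hi⟩ | ⟨rfl, hi⟩ | ⟨rfl, hi⟩ |
      ⟨rfl, rfl⟩
    · have h1 := (hT 1 i (by norm_num) (by rw [mem_labs]; simp [Valid, hi])).1
        (by simp [adj, inc])
      have h6 := hT 6 0 (by norm_num) (by rw [mem_labs]; simp [Valid])
      rcases hv' with ⟨rfl, hj, rfl⟩ | ⟨rfl, hj⟩ | ⟨rfl, hj⟩ | ⟨rfl, hj⟩ | ⟨rfl, hj⟩ | ⟨rfl, hj⟩ |
        ⟨rfl, rfl⟩ <;> simp [adj, inc] at h1 h6
      · subst h1
        exact htw _ _ _ _ rfl rfl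
    · have h1 := (hT 2 i (by norm_num) (by rw [mem_labs]; simp [Valid, hi])).1
        (by simp [adj, inc])
      rcases hv' with ⟨rfl, hj, rfl⟩ | ⟨rfl, hj⟩ | ⟨rfl, hj⟩ | ⟨rfl, hj⟩ | ⟨rfl, hj⟩ | ⟨rfl, hj⟩ |
        ⟨rfl, rfl⟩
      · simp [adj, inc] at h1
      · simp [adj, inc] at h1
        subst h1
        exact htw _ _ _ _ rfl rfl
      · simp [adj, inc] at h1
      · simp [adj, inc] at h1
      · simp [adj, inc] at h1
      · simp [adj, inc] at h1
      · obtain ⟨j, hj, hji⟩ : ∃ j, j < n ∧ j ≠ i := by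
          by_cases h0 : i = 0
          · exact ⟨1, by omega, by omega⟩
          · exact ⟨0, by omega, fun h => h0 h.symm⟩
        have h2 := (hT 2 j (by norm_num) (by rw [mem_labs]; simp [Valid, hj])).2
          (by simp [adj, inc])
        simp [adj, inc] at h2
        exact hji h2.symm
    · have h1 := (hT 1 i (by norm_num) (by rw [mem_labs]; simp [Valid, hi])).1
        (by simp [adj, inc])
      have h6 := (hT 6 0 (by norm_num) (by rw [mem_labs]; simp [Valid])).1 (by simp [adj, inc])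
      rcases hv' with ⟨rfl, hj, rfl⟩ | ⟨rfl, hj⟩ | ⟨rfl, hj⟩ | ⟨rfl, hj⟩ | ⟨rfl, hj⟩ | ⟨rfl, hj⟩ |
        ⟨rfl, rfl⟩ <;> simp [adj, inc] at h1 h6
      subst h1
      exact htw _ _ _ _ rfl rfl
    · have h1 := (hT 4 i (by norm_num) (by rw [mem_labs]; simp [Valid, hi])).1
        (by simp [adj, inc])
      rcases hv' with ⟨rfl, hj, rfl⟩ | ⟨rfl, hj⟩ | ⟨rfl, hj⟩ | ⟨rfl, hj⟩ | ⟨rfl, hj⟩ | ⟨rfl, hj⟩ |
        ⟨rfl, rfl⟩
      · have h2 := (hT 1 j (by norm_num) (by rw [mem_labs]; simp [Valid, hj])).2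
          (by simp [adj, inc])
        simp [adj, inc] at h2
      · simp [adj, inc] at h1
      · simp [adj, inc] at h1
      · simp [adj, inc] at h1
        subst h1
        exact htw _ _ _ _ rfl rfl
      · simp [adj, inc] at h1
      · simp [adj, inc] at h1
      · simp [adj, inc] at h1
    · have h1 := (hT 3 i (by norm_num) (by rw [mem_labs]; simp [Valid, hi])).1
        (by simp [adj, inc])
      rcases hv' with ⟨rfl, hj, rfl⟩ | ⟨rfl, hj⟩ | ⟨rfl, hj⟩ | ⟨rfl, hj⟩ | ⟨rfl, hj⟩ | ⟨rfl, hj⟩ |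
        ⟨rfl, rfl⟩ <;> simp [adj, inc] at h1
      · subst h1
        exact htw _ _ _ _ rfl rfl
      · subst h1
        exact h45 _ _ _ (Or.inl ⟨rfl, rfl⟩)
    · have h1 := (hT 3 i (by norm_num) (by rw [mem_labs]; simp [Valid, hi])).1
        (by simp [adj, inc])
      rcases hv' with ⟨rfl, hj, rfl⟩ | ⟨rfl, hj⟩ | ⟨rfl, hj⟩ | ⟨rfl, hj⟩ | ⟨rfl, hj⟩ | ⟨rfl, hj⟩ |
        ⟨rfl, rfl⟩ <;> simp [adj, inc] at h1
      · subst h1
        exact h45 _ _ _ (Or.inr ⟨rfl, rfl⟩)
      · subst h1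
        exact htw _ _ _ _ rfl rfl
    · have h1 := (hT 2 0 (by norm_num) (by rw [mem_labs]; simp [Valid]; omega)).1
        (by simp [adj, inc])
      have h2 := (hT 2 1 (by norm_num) (by rw [mem_labs]; simp [Valid]; omega)).1
        (by simp [adj, inc])
      rcases hv' with ⟨rfl, hj, rfl⟩ | ⟨rfl, hj⟩ | ⟨rfl, hj⟩ | ⟨rfl, hj⟩ | ⟨rfl, hj⟩ | ⟨rfl, hj⟩ |
        ⟨rfl, rfl⟩ <;> simp [adj, inc] at h1 h2
      · omega
      · exact htw _ _ _ _ rfl rfl

theorem isLD_iff (hn : 2 ≤ n) {S : Set {x // x ∈ labs n E}} : IsLD (GG n E) S ↔ Good S :=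
  ⟨good_of_isLD, isLD_of_good hn⟩

end Pool.Agent.X248.LD
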