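import Pool.Agent.X248.LD.Part
import Pool.Agent.H671R2.PolyAuto

/-!
# Locating-dominating coalitions: the hypergraph of a formula and polynomial time
-/

set_option autoImplicit false

namespace Pool.Agent.X248.LD

open Pool.Agent.NPC Pool.Agent.H622R2

/-- Clauses. -/
abbrev Cl := (Bool × ℕ) × (Bool × ℕ) × (Bool × ℕ)

/-- The point of a literal. -/
def lp (l : Bool × ℕ) : ℕ := 2 * l.2 + (if l.1 then 1 else 0)

/-- The number of points. -/
def pts (φ : List Cl) : ℕ := 6 * φ.length + 1

/-- The hyperedges. -/
def edg (φ : List Cl) : List (List ℕ) :=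
  ((List.range (3 * φ.length)).map fun i => [lp (false, i), lp (true, i)]) ++
  φ.map fun c => [lp c.1, lp c.2.1, lp c.2.2, 6 * φ.length]

theorem small_edg {φ : List Cl} (hb : Bounded3 φ) : Small (pts φ) (edg φ) := by
  intro l hl
  unfold edg at hl
  rw [List.mem_append, List.mem_map, List.mem_map] at hl
  rcases hl with ⟨i, hi, rfl⟩ | ⟨c, hc, rfl⟩
  · rw [List.mem_range] at hi
    refine ⟨by simp, by simp, fun j hj => ?_⟩
    simp only [List.mem_cons, List.not_mem_nil, or_false, lp, pts] at hj ⊢
    rcases hj with rfl | rfl <;> simp <;> omega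
  · obtain ⟨h1, h2, h3⟩ := hb c hc
    refine ⟨by simp, by simp, fun j hj => ?_⟩
    simp only [List.mem_cons, List.not_mem_nil, or_false, lp, pts] at hj ⊢
    rcases hj with rfl | rfl | rfl | rfl
    · split_ifs <;> omega
    · split_ifs <;> omega
    · split_ifs <;> omega
    · omega

theorem sat_iff {φ : List Cl} (hb : Bounded3 φ) : SAT3 φ ↔ ∃ χ, TwoCol (edg φ) χ := by
  constructor
  · rintro ⟨τ, hτ⟩
    let χ : ℕ → Bool := fun j => if j = 6 * φ.length then false else
      if j % 2 = 1 then τ (j / 2) else !τ (j / 2)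
    have hlp : ∀ l : Bool × ℕ, l.2 < 3 * φ.length → (χ (lp l) = true ↔ τ l.2 = l.1) := by
      rintro ⟨b, i⟩ hi
      simp only [χ, lp] at hi ⊢
      cases b
      · simp only [Bool.false_eq_true, if_false, add_zero]
        rw [if_neg (by omega), if_neg (by omega), show 2 * i / 2 = i by omega]
        simp
      · simp only [if_true]
        rw [if_neg (by omega), if_pos (by omega), show (2 * i + 1) / 2 = i by omega]
    refine ⟨χ, fun l hl => ?_⟩
    unfold edg at hl
    rw [List.mem_append, List.mem_map, List.mem_map] at hl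
    rcases hl with ⟨i, hi, rfl⟩ | ⟨c, hc, rfl⟩
    · rw [List.mem_range] at hi
      have h1 := hlp (true, i) hi
      have h2 := hlp (false, i) hi
      simp only at h1 h2
      by_cases h : τ i = true
      · refine ⟨⟨_, by simp, h1.2 h⟩, lp (false, i), by simp, ?_⟩
        by_contra hc
        rw [Bool.not_eq_false] at hc
        have := h2.1 hc
        rw [h] at this
        exact absurd this (by simp)
      · rw [Bool.not_eq_true] at h
        refine ⟨⟨_, by simp, h2.2 h⟩, lp (true, i), by simp, ?_⟩
        by_contra hc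
        rw [Bool.not_eq_false] at hc
        have := h1.1 hc
        rw [h] at this
        exact absurd this (by simp)
    · obtain ⟨h1, h2, h3⟩ := hb c hc
      refine ⟨?_, 6 * φ.length, by simp, by simp [χ]⟩
      rcases hτ c hc with h | h | h
      · exact ⟨_, by simp, (hlp c.1 h1).2 h⟩
      · exact ⟨lp c.2.1, by simp, (hlp c.2.1 h2).2 h⟩
      · exact ⟨lp c.2.2, by simp, (hlp c.2.2 h3).2 h⟩
  · rintro ⟨χ, hχ⟩
    have hvar : ∀ i, i < 3 * φ.length → χ (2 * i) ≠ χ (2 * i + 1) := by
      intro i hi
      have := hχ [lp (false, i), lp (true, i)] (by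
        unfold edg
        rw [List.mem_append, List.mem_map]
        exact Or.inl ⟨i, List.mem_range.2 hi, rfl⟩)
      simp only [lp, List.mem_cons, List.not_mem_nil, or_false] at this
      obtain ⟨⟨a, ha, ha1⟩, b, hb, hb1⟩ := this
      simp only [Bool.false_eq_true, if_false, add_zero, if_true] at ha hb
      intro heq
      rcases ha with rfl | rfl <;> rcases hb with rfl | rfl <;> simp_all
    refine ⟨fun i => χ (2 * i + 1) != χ (6 * φ.length), fun c hc => ?_⟩
    obtain ⟨h1, h2, h3⟩ := hb c hc
    have hlit : ∀ l : Bool × ℕ, l.2 < 3 * φ.length → χ (lp l) ≠ χ (6 * φ.length) →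
        (χ (2 * l.2 + 1) != χ (6 * φ.length)) = l.1 := by
      rintro ⟨b, i⟩ hi hne
      have hv := hvar i hi
      simp only [lp] at hi hne ⊢
      cases b
      · simp only [Bool.false_eq_true, if_false, add_zero] at hne
        revert hv hne
        cases χ (2 * i) <;> cases χ (2 * i + 1) <;> cases χ (6 * φ.length) <;> simp
      · simp only [if_true] at hne
        simpa using hne
    have := hχ [lp c.1, lp c.2.1, lp c.2.2, 6 * φ.length] (by
      unfold edg
      rw [List.mem_append, List.mem_map (l := φ)]
      exact Or.inr ⟨c, hc, rfl⟩)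
    obtain ⟨⟨a, ha, ha1⟩, b, hb, hb1⟩ := this
    have hex : ∃ j ∈ [lp c.1, lp c.2.1, lp c.2.2, 6 * φ.length], χ j ≠ χ (6 * φ.length) := by
      by_cases hf : χ (6 * φ.length) = true
      · exact ⟨b, hb, by rw [hb1, hf]; simp⟩
      · rw [Bool.not_eq_true] at hf
        exact ⟨a, ha, by rw [ha1, hf]; simp⟩
    obtain ⟨j, hj, hjne⟩ := hex
    simp only [List.mem_cons, List.not_mem_nil, or_false] at hj
    rcases hj with rfl | rfl | rfl | rfl
    · exact Or.inl (hlit _ h1 hjne)
    · exact Or.inr (Or.inl (hlit _ h2 hjne))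
    · exact Or.inr (Or.inr (hlit _ h3 hjne))
    · exact absurd rfl hjne

section PolyTime

theorem poly_hasE : Poly (fun p : List (List ℕ) × ℕ × ℕ => hasE p.1 p.2.1 p.2.2) := by
  unfold hasE
  exact Poly.any (p := fun (p : List (List ℕ) × ℕ × ℕ) j => decide (j = p.2.2))
    (by fun_prop) (by fun_prop)

variable {α : Type} [TEnc α]

theorem poly_hasE' {E : α → List (List ℕ)} {e i : α → ℕ} (h1 : Poly E) (h2 : Poly e)
    (h3 : Poly i) : Poly (fun a => hasE (E a) (e a) (i a)) :=
  poly_hasE.comp (Poly.pair h1 (Poly.pair h2 h3))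

attribute [local fun_prop] poly_hasE'

theorem poly_adjE : Poly (fun p : (List (List ℕ) × Lab) × Lab => adj p.1.1 p.1.2 p.2) := by
  unfold adj inc
  fun_prop

theorem poly_lp {l : α → Bool × ℕ} (h : Poly l) : Poly (fun a => lp (l a)) := by
  unfold lp
  fun_prop

attribute [local fun_prop] poly_lp

/-- The data: the number of points and the hyperedges. -/
def dat (φ : List Cl) : ℕ × List (List ℕ) := (pts φ + 8, edg φ ++ extra (pts φ))

theorem poly_pts : Poly pts := by
  unfold pts
  fun_prop

theorem poly_edg : Poly edg := by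
  unfold edg
  have hr : Poly (fun φ : List Cl => List.range (3 * φ.length)) :=
    ((UPoly.const 3).mul (UPoly.length Poly.id)).range
  refine Poly.append ?_ ?_
  · exact NPC.Poly.map (F := fun (_ : List Cl) (i : ℕ) => [lp (false, i), lp (true, i)]) hr
      (by fun_prop)
  · exact NPC.Poly.map (F := fun (φ : List Cl) (c : Cl) =>
      [lp c.1, lp c.2.1, lp c.2.2, 6 * φ.length]) (by fun_prop) (by fun_prop)

theorem poly_E : Poly (fun φ => edg φ ++ extra (pts φ)) := by
  unfold extra
  have h1 := poly_pts
  have h2 := poly_edg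
  fun_prop

theorem poly_labs : Poly (fun φ => labs (pts φ + 8) (edg φ ++ extra (pts φ))) := by
  unfold labs
  have hr : Poly (fun φ : List Cl => List.range (pts φ + 8)) := by
    have : UPoly (fun φ : List Cl => pts φ + 8) := by
      unfold pts
      exact (((UPoly.const 6).mul (UPoly.length Poly.id)).add (UPoly.const 1)).add (UPoly.const 8)
    exact this.range
  have hr2 : Poly (fun φ : List Cl => List.range (edg φ ++ extra (pts φ)).length) :=
    Poly.range_length poly_E
  fun_prop

/-- The reduction. -/
def red (φ : List Cl) : List (List Bool) :=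
  mat (labs (pts φ + 8) (edg φ ++ extra (pts φ))) (adj (edg φ ++ extra (pts φ)))

theorem poly_red : Poly red := by
  refine mat_poly poly_labs ?_
  exact poly_adjE.comp (Poly.pair (Poly.pair (poly_E.comp (by fun_prop)) (by fun_prop))
    (by fun_prop))

end PolyTime

/-- **Hardness**, on connected graphs. -/
theorem hardPr_ldc : HardPr (fun M : List (List Bool) => (matGraph M).Connected)
    (fun M => CLge (matGraph M) 8) := by
  refine hardPr_SAT3b.trans poly_red ?_ ?_
  · rintro φ ⟨_, hb, _⟩
    have e := matIso (labs (pts φ + 8) (edg φ ++ extra (pts φ)))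
      (adj (edg φ ++ extra (pts φ))) labs_nodup
    exact e.connected_iff.2 (connected' (small_edg hb))
  · rintro φ ⟨_, hb, _⟩
    have e := matIso (labs (pts φ + 8) (edg φ ++ extra (pts φ)))
      (adj (edg φ ++ extra (pts φ))) labs_nodup
    rw [sat_iff hb, ← clge_iff (small_edg hb)]
    exact (clge_iso e).symm

end Pool.Agent.X248.LD
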