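import Pool.Agent.X248.LD.Graph

/-!
# Locating-dominating coalitions: partitions and 2-colourings
-/

set_option autoImplicit false

namespace Pool.Agent.X248.LD

open Pool.Agent.NPC Pool.Agent.H622R2

/-- The hyperedges are nonempty, have at most four points, and the points are below `n`. -/
def Small (n : ℕ) (E : List (List ℕ)) : Prop :=
  ∀ l ∈ E, l ≠ [] ∧ l.length ≤ 4 ∧ ∀ i ∈ l, i < n

/-- Both colours occur in every hyperedge. -/
def TwoCol (E : List (List ℕ)) (χ : ℕ → Bool) : Prop :=
  ∀ l ∈ E, (∃ i ∈ l, χ i = true) ∧ ∃ i ∈ l, χ i = false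

variable {n : ℕ} {E : List (List ℕ)}

/-! ### Connectivity -/

theorem connected (hn : 2 ≤ n) (hE : Small n E) : (GG n E).Connected := by
  have h6 : (6, 0, false) ∈ labs n E := by rw [mem_labs]; simp [Valid]
  have hadj : ∀ {x y : Lab} (hx : x ∈ labs n E) (hy : y ∈ labs n E), adj E x y = true →
      (GG n E).Reachable ⟨x, hx⟩ ⟨y, hy⟩ := fun hx hy h =>
    ((GG_adj ⟨_, hx⟩ ⟨_, hy⟩).2 h).reachable
  have r2 : ∀ i b, i < n → ∀ h : (2, i, b) ∈ labs n E,
      (GG n E).Reachable ⟨(2, i, b), h⟩ ⟨(6, 0, false), h6⟩ := fun i b _ h =>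
    hadj h h6 (by simp [adj, inc])
  have r1 : ∀ i b, i < n → ∀ h : (1, i, b) ∈ labs n E,
      (GG n E).Reachable ⟨(1, i, b), h⟩ ⟨(6, 0, false), h6⟩ := fun i b hi h =>
    (hadj h (y := (2, i, false)) (by rw [mem_labs]; simp [Valid, hi]) (by simp [adj, inc])).trans
      (r2 i false hi _)
  have r0 : ∀ i b, i < n → ∀ h : (0, i, b) ∈ labs n E,
      (GG n E).Reachable ⟨(0, i, b), h⟩ ⟨(6, 0, false), h6⟩ := fun i b hi h =>
    (hadj h (y := (1, i, false)) (by rw [mem_labs]; simp [Valid, hi]) (by simp [adj, inc])).trans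
      (r1 i false hi _)
  have r4 : ∀ e b, e < E.length → ∀ h : (4, e, b) ∈ labs n E,
      (GG n E).Reachable ⟨(4, e, b), h⟩ ⟨(6, 0, false), h6⟩ := by
    intro e b he h
    obtain ⟨h1, -, h3⟩ := hE _ (List.getElem_mem he)
    obtain ⟨i, hi⟩ := List.exists_mem_of_ne_nil _ h1
    have hi' := (hasE_iff he).2 hi
    exact (hadj h (y := (0, i, false)) (by rw [mem_labs]; simp [Valid, h3 i hi])
      (by simp [adj, inc, hi'])).trans (r0 i false (h3 i hi) _)
  have r3 : ∀ e b, e < E.length → ∀ h : (3, e, b) ∈ labs n E,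
      (GG n E).Reachable ⟨(3, e, b), h⟩ ⟨(6, 0, false), h6⟩ := fun e b he h =>
    (hadj h (y := (4, e, false)) (by rw [mem_labs]; simp [Valid, he]) (by simp [adj, inc])).trans
      (r4 e false he _)
  have r5 : ∀ e b, e < E.length → ∀ h : (5, e, b) ∈ labs n E,
      (GG n E).Reachable ⟨(5, e, b), h⟩ ⟨(6, 0, false), h6⟩ := fun e b he h =>
    (hadj h (y := (3, e, false)) (by rw [mem_labs]; simp [Valid, he]) (by simp [adj, inc])).trans
      (r3 e false he _)
  have hall : ∀ x : {x // x ∈ labs n E}, (GG n E).Reachable x ⟨(6, 0, false), h6⟩ := by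
    rintro ⟨⟨k, i, b⟩, h⟩
    have h' := mem_labs.1 h
    simp only [Valid] at h'
    rcases h' with ⟨rfl, hi, _⟩ | ⟨rfl, hi⟩ | ⟨rfl, hi⟩ | ⟨rfl, hi⟩ | ⟨rfl, hi⟩ | ⟨rfl, hi⟩ |
      ⟨rfl, rfl⟩
    · exact r0 i b hi _
    · exact r1 i b hi _
    · exact r2 i b hi _
    · exact r3 i b hi _
    · exact r4 i b hi _
    · exact r5 i b hi _
    · exact (hadj h (y := (2, 0, false)) (by rw [mem_labs]; simp [Valid]; omega)
        (by simp [adj, inc])).trans (r2 0 false (by omega) _)
  haveI : Nonempty {x // x ∈ labs n E} := ⟨⟨_, h6⟩⟩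
  exact ⟨fun x y => (hall x).trans (hall y).symm⟩

/-! ### From partitions to colourings -/

/-- A set which is not good misses a list of at most six labels. -/
theorem missed (hE : Small n E) {S : Set {x // x ∈ labs n E}} (h : ¬ Good S) :
    ∃ F : List Lab, F.length ≤ 6 ∧ (∀ x ∈ F, ¬ inS S x) ∧
      ∀ T : Set {x // x ∈ labs n E}, Good T → ∃ x ∈ F, inS T x := by
  unfold Good at h
  rw [not_and_or] at h
  rcases h with h | h
  · push Not at h
    obtain ⟨k, i, hk, hv, h1, h2⟩ := h
    refine ⟨[(k, i, false), (k, i, true)], by simp, by simp [h1, h2], fun T hT => ?_⟩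
    rcases hT.1 k i hk hv with h3 | h3
    · exact ⟨_, by simp, h3⟩
    · exact ⟨_, by simp, h3⟩
  · push Not at h
    obtain ⟨e, he, b, b', h1, h2, h3⟩ := h
    refine ⟨(4, e, b) :: (5, e, b') :: E[e].map (fun i => (0, i, false)), ?_, ?_, fun T hT => ?_⟩
    · have := (hE _ (List.getElem_mem he)).2.1
      simp only [List.length_cons, List.length_map]
      omega
    · intro x hx
      simp only [List.mem_cons, List.mem_map] at hx
      rcases hx with rfl | rfl | ⟨i, hi, rfl⟩
      · exact h1
      · exact h2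
      · exact h3 i ((hasE_iff he).2 hi)
    · rcases hT.2 e he b b' with h4 | h4 | ⟨i, hi, h4⟩
      · exact ⟨_, by simp, h4⟩
      · exact ⟨_, by simp, h4⟩
      · refine ⟨(0, i, false), ?_, h4⟩
        simp only [List.mem_cons, List.mem_map]
        exact Or.inr (Or.inr ⟨i, (hasE_iff he).1 hi, rfl⟩)

/-- Two disjoint good sets give a colouring. -/
theorem col_of_disjoint {S T : Set {x // x ∈ labs n E}} (hS : Good S) (hT : Good T)
    (hd : Disjoint S T) : ∃ χ, TwoCol E χ := by
  classical
  have hdis : ∀ x, inS S x → inS T x → False := by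
    rintro x ⟨h1, h2⟩ ⟨_, h3⟩
    exact Set.disjoint_left.1 hd h2 h3
  have key : ∀ {S T : Set {x // x ∈ labs n E}}, Good S → Good T →
      (∀ x, inS S x → inS T x → False) → ∀ e, ∀ he : e < E.length,
        ∃ i ∈ E[e], inS S (0, i, false) := by
    intro S T hS hT hdis e he
    have h4 : ∃ b, inS T (4, e, b) := by
      rcases hT.1 4 e (by norm_num) (by rw [mem_labs]; simp [Valid, he]) with h | h
      · exact ⟨_, h⟩
      · exact ⟨_, h⟩
    have h5 : ∃ b, inS T (5, e, b) := by
      rcases hT.1 5 e (by norm_num) (by rw [mem_labs]; simp [Valid, he]) with h | h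
      · exact ⟨_, h⟩
      · exact ⟨_, h⟩
    obtain ⟨b, hb⟩ := h4
    obtain ⟨b', hb'⟩ := h5
    rcases hS.2 e he b b' with h | h | ⟨i, hi, h⟩
    · exact (hdis _ h hb).elim
    · exact (hdis _ h hb').elim
    · exact ⟨i, (hasE_iff he).1 hi, h⟩
  refine ⟨fun i => decide (inS S (0, i, false)), fun l hl => ?_⟩
  obtain ⟨e, he, rfl⟩ := List.getElem_of_mem hl
  obtain ⟨i, hi, h1⟩ := key hS hT hdis e he
  obtain ⟨j, hj, h2⟩ := key hT hS (fun x a b => hdis x b a) e he
  exact ⟨⟨i, hi, by simp [h1]⟩, j, hj, by simpa using fun h => hdis _ h h2⟩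

/-- A partition with eight parts gives a colouring. -/
theorem col_of_clge (hn : 2 ≤ n) (hE : Small n E) (h : CLge (GG n E) 8) : ∃ χ, TwoCol E χ := by
  classical
  obtain ⟨m, hm, f, hf, hi⟩ := h
  choose hnot p hp hco using hi
  by_contra hcon
  -- two disjoint pairs of parts cannot both be coalitions
  have hno : ∀ a b c d : Fin m, IsLD (GG n E) (f ⁻¹' {a} ∪ f ⁻¹' {b}) →
      IsLD (GG n E) (f ⁻¹' {c} ∪ f ⁻¹' {d}) → a ≠ c → a ≠ d → b ≠ c → b ≠ d → False := by
    intro a b c d h1 h2 hac had hbc hbd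
    apply hcon
    refine col_of_disjoint ((isLD_iff hn).1 h1) ((isLD_iff hn).1 h2) ?_
    rw [Set.disjoint_left]
    rintro x (hx | hx) (hy | hy)
    · exact hac (hx.symm.trans hy)
    · exact had (hx.symm.trans hy)
    · exact hbc (hx.symm.trans hy)
    · exact hbd (hx.symm.trans hy)
  -- a star
  have hstar : ∀ c : Fin m, (∀ i, i ≠ c → IsLD (GG n E) (f ⁻¹' {c} ∪ f ⁻¹' {i})) → False := by
    intro c hc
    have hg : ¬ Good (f ⁻¹' {c}) := fun h => hnot c ((isLD_iff hn).2 h)
    obtain ⟨F, hF, hm1, hm2⟩ := missed hE hg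
    have h1 : ∀ i, i ≠ c → ∃ x ∈ F, inS (f ⁻¹' {i}) x := by
      intro i hic
      obtain ⟨x, hx, hxS⟩ := hm2 _ ((isLD_iff hn).1 (hc i hic))
      rw [inS_union] at hxS
      rcases hxS with h | h
      · exact (hm1 x hx h).elim
      · exact ⟨x, hx, h⟩
    have h2 : ∀ i : Fin m, ∃ x : Lab, i ≠ c → x ∈ F ∧ inS (f ⁻¹' {i}) x := by
      intro i
      by_cases hic : i = c
      · exact ⟨(0, 0, false), fun h => (h hic).elim⟩
      · obtain ⟨x, hx⟩ := h1 i hic
        exact ⟨x, fun _ => hx⟩
    choose g hg2 using h2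
    have h3 : (Finset.univ.erase c).card ≤ F.toFinset.card := by
      refine Finset.card_le_card_of_injOn g ?_ ?_
      · intro i hi
        have := (hg2 i (Finset.ne_of_mem_erase hi)).1
        simpa using this
      · intro i hi j hj hij
        obtain ⟨_, h4, h5⟩ := hg2 i (Finset.ne_of_mem_erase hi)
        obtain ⟨_, h6, h7⟩ := hg2 j (Finset.ne_of_mem_erase hj)
        have h8 : f ⟨g i, h4⟩ = i := h5
        have h9 : f ⟨g j, h6⟩ = j := h7
        rw [← h8, ← h9]
        congr 1
        exact Subtype.ext hij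
    rw [Finset.card_erase_of_mem (Finset.mem_univ _), Finset.card_univ, Fintype.card_fin] at h3
    have h4 := F.toFinset_card_le
    omega
  have hsym : ∀ a b : Fin m, IsLD (GG n E) (f ⁻¹' {a} ∪ f ⁻¹' {b}) →
      IsLD (GG n E) (f ⁻¹' {b} ∪ f ⁻¹' {a}) := fun a b h => by rwa [Set.union_comm]
  have hLD : ∀ i, IsLD (GG n E) (f ⁻¹' {i} ∪ f ⁻¹' {p i}) := fun i => (hco i).2.2
  set i0 : Fin m := ⟨0, by omega⟩ with hi0
  set j0 := p i0 with hj0
  have hij : j0 ≠ i0 := hp i0
  -- the partner of another part is `i0` or `j0`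
  have h1 : ∀ i, i ≠ i0 → i ≠ j0 → p i = i0 ∨ p i = j0 := by
    intro i h2 h3
    by_contra hc
    push Not at hc
    exact hno i (p i) i0 j0 (hLD i) (hLD i0) h2 h3 hc.1 hc.2
  -- all partners are the same
  have h2 : ∀ i j, i ≠ i0 → i ≠ j0 → j ≠ i0 → j ≠ j0 → p i = i0 → p j = i0 := by
    intro i j a1 a2 a3 a4 h
    rcases h1 j a3 a4 with h5 | h5
    · exact h5
    · by_cases hijj : i = j
      · rw [← hijj]; exact h
      · exfalso
        have e1 := hLD i
        rw [h] at e1
        have e2 := hLD j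
        rw [h5] at e2
        exact hno i i0 j j0 e1 e2 hijj a2 (fun h => a3 h.symm) hij.symm
  by_cases hex : ∃ i, i ≠ i0 ∧ i ≠ j0 ∧ p i = i0
  · obtain ⟨i, a1, a2, a3⟩ := hex
    refine hstar i0 (fun j hj => ?_)
    by_cases hjj : j = j0
    · rw [hjj]; exact hLD i0
    · have e1 := hLD j
      rw [h2 i j a1 a2 hj hjj a3] at e1
      exact hsym _ _ e1
  · push Not at hex
    refine hstar j0 (fun j hj => ?_)
    by_cases hjj : j = i0
    · rw [hjj]; exact hsym _ _ (hLD i0)
    · have e1 := hLD j
      rcases h1 j hjj hj with h5 | h5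
      · exact (hex j hjj hj h5).elim
      · rw [h5] at e1
        exact hsym _ _ e1

/-! ### From colourings to partitions -/

/-- The two additional hyperedges. -/
def extra (m : ℕ) : List (List ℕ) := [[m, m + 1, m + 2, m + 3], [m + 4, m + 5, m + 6, m + 7]]

/-- The part of a label. -/
def part (m : ℕ) (χ : ℕ → Bool) (x : Lab) : Fin 8 :=
  if x.1 = 0 then
    (if x.2.1 < m then (if χ x.2.1 then 0 else 4)
      else if x.2.1 = m then 1 else if x.2.1 = m + 1 then 2 else if x.2.1 = m + 2 then 3
      else if x.2.1 = m + 3 then 4 else if x.2.1 = m + 4 then 5 else if x.2.1 = m + 5 then 6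
      else if x.2.1 = m + 6 then 7 else 0)
  else if x.2.2 then 0 else 4

/-- The partition. -/
def pf (m : ℕ) (E : List (List ℕ)) (χ : ℕ → Bool)
    (x : {x // x ∈ labs (m + 8) (E ++ extra m)}) : Fin 8 := part m χ x.1

variable {m : ℕ} {χ : ℕ → Bool}

theorem inS_pf {x : Lab} {i : Fin 8} (h : x ∈ labs (m + 8) (E ++ extra m)) :
    inS (pf m E χ ⁻¹' {i}) x ↔ part m χ x = i := by
  unfold inS pf
  constructor
  · rintro ⟨_, h'⟩
    exact h'
  · intro h'
    exact ⟨h, h'⟩

theorem mem0 {i : ℕ} (hi : i < m + 8) : (0, i, false) ∈ labs (m + 8) (E ++ extra m) := by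
  rw [mem_labs]; simp [Valid, hi]

theorem mem45 {k e : ℕ} {b : Bool} (hk : k = 4 ∨ k = 5) (he : e < (E ++ extra m).length) :
    (k, e, b) ∈ labs (m + 8) (E ++ extra m) := by
  rw [mem_labs]
  rcases hk with rfl | rfl <;> simp [Valid] <;> simpa using he

theorem part_pos {k i : ℕ} {b : Bool} (hk : 1 ≤ k) :
    part m χ (k, i, b) = if b then 0 else 4 := by
  unfold part
  rw [if_neg (by simp only; omega)]

/-- Good unions of parts. -/
theorem good_union (hχ : TwoCol E χ) (hE : ∀ l ∈ E, ∀ i ∈ l, i < m) (c : Bool) (j : Fin 8)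
    (hj : (if c then j.1 = 1 ∨ j.1 = 2 ∨ j.1 = 3 else j.1 = 5 ∨ j.1 = 6 ∨ j.1 = 7)) :
    Good (pf m E χ ⁻¹' {if c then 0 else 4} ∪ pf m E χ ⁻¹' {j}) := by
  constructor
  · intro k i hk hv
    rw [inS_union, inS_union]
    cases c
    · left; left
      rw [inS_pf hv, part_pos hk]
    · right; left
      rw [inS_pf (valid_twin hk hv), part_pos hk]
  · intro e he b b'
    rw [inS_union, inS_union]
    by_cases hb : b = c
    · left; left
      rw [inS_pf (mem45 (Or.inl rfl) he), part_pos (by norm_num), hb]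
    · by_cases hb' : b' = c
      · right; left; left
        rw [inS_pf (mem45 (Or.inr rfl) he), part_pos (by norm_num), hb']
      · right; right
        have hpt : ∀ i, i ∈ (E ++ extra m)[e] → i < m + 8 → (part m χ (0, i, false) =
            (if c then 0 else 4) ∨ part m χ (0, i, false) = j) →
            ∃ i, hasE (E ++ extra m) e i = true ∧
              inS (pf m E χ ⁻¹' {if c then 0 else 4} ∪ pf m E χ ⁻¹' {j}) (0, i, false) := by
          intro i hi him hpi
          refine ⟨i, (hasE_iff he).2 hi, ?_⟩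
          rw [inS_union, inS_pf (mem0 him), inS_pf (mem0 him)]
          exact hpi
        by_cases hlt : e < E.length
        · have e1 : (E ++ extra m)[e] = E[e] := List.getElem_append_left hlt
          obtain ⟨⟨i, hi, hi2⟩, i', hi', hi2'⟩ := hχ _ (List.getElem_mem hlt)
          have hm1 := hE _ (List.getElem_mem hlt) i hi
          have hm2 := hE _ (List.getElem_mem hlt) i' hi'
          cases c
          · refine hpt i' (by rw [e1]; exact hi') (by omega) (Or.inl ?_)
            simp [part, hm2, hi2']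
          · refine hpt i (by rw [e1]; exact hi) (by omega) (Or.inl ?_)
            simp [part, hm1, hi2]
        · have hlen : (E ++ extra m).length = E.length + 2 := by simp [extra]
          have e1 : (E ++ extra m)[e] = (extra m)[e - E.length]'(by simp [extra]; omega) :=
            List.getElem_append_right (by omega)
          have e2 : e - E.length = 0 ∨ e - E.length = 1 := by omega
          rcases e2 with e2 | e2
          · have e3 : (E ++ extra m)[e] = [m, m + 1, m + 2, m + 3] := by
              rw [e1]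
              simp only [e2]
              rfl
            cases c
            · refine hpt (m + 3) (by rw [e3]; simp) (by omega) (Or.inl ?_)
              simp [part]
            · simp only [if_true] at hj
              rcases hj with hj | hj | hj
              · refine hpt m (by rw [e3]; simp) (by omega) (Or.inr ?_)
                rw [Fin.ext_iff, hj]
                simp [part]
              · refine hpt (m + 1) (by rw [e3]; simp) (by omega) (Or.inr ?_)
                rw [Fin.ext_iff, hj]
                simp [part]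
              · refine hpt (m + 2) (by rw [e3]; simp) (by omega) (Or.inr ?_)
                rw [Fin.ext_iff, hj]
                simp [part]
          · have e3 : (E ++ extra m)[e] = [m + 4, m + 5, m + 6, m + 7] := by
              rw [e1]
              simp only [e2]
              rfl
            cases c
            · simp only [Bool.false_eq_true, if_false] at hj
              rcases hj with hj | hj | hj
              · refine hpt (m + 4) (by rw [e3]; simp) (by omega) (Or.inr ?_)
                rw [Fin.ext_iff, hj]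
                simp [part]
              · refine hpt (m + 5) (by rw [e3]; simp) (by omega) (Or.inr ?_)
                rw [Fin.ext_iff, hj]
                simp [part]
              · refine hpt (m + 6) (by rw [e3]; simp) (by omega) (Or.inr ?_)
                rw [Fin.ext_iff, hj]
                simp [part]
            · refine hpt (m + 7) (by rw [e3]; simp) (by omega) (Or.inl ?_)
              simp [part]

/-- No part is good. -/
theorem not_good (j : Fin 8) : ¬ Good (pf m E χ ⁻¹' {j}) := by
  intro h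
  have hlen : (E ++ extra m).length = E.length + 2 := by simp [extra]
  by_cases h0 : j.1 = 0
  · have hb : E.length < (E ++ extra m).length := by omega
    have e3 : (E ++ extra m)[E.length] = [m, m + 1, m + 2, m + 3] := by
      rw [List.getElem_append_right (le_refl _)]
      simp [extra]
    rcases h.2 E.length hb false false with h1 | h1 | ⟨i, hi, h1⟩
    · rw [inS_pf (mem45 (Or.inl rfl) hb), part_pos (by norm_num), Fin.ext_iff] at h1
      simp [h0] at h1
    · rw [inS_pf (mem45 (Or.inr rfl) hb), part_pos (by norm_num), Fin.ext_iff] at h1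
      simp [h0] at h1
    · rw [hasE_iff hb, e3] at hi
      simp only [List.mem_cons, List.not_mem_nil, or_false] at hi
      rcases hi with rfl | rfl | rfl | rfl
      all_goals
        rw [inS_pf (mem0 (by omega)), Fin.ext_iff] at h1
        simp [part, h0] at h1
  · by_cases h4 : j.1 = 4
    · have hb : E.length + 1 < (E ++ extra m).length := by omega
      have e3 : (E ++ extra m)[E.length + 1] = [m + 4, m + 5, m + 6, m + 7] := by
        rw [List.getElem_append_right (by omega)]
        simp [extra]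
      rcases h.2 (E.length + 1) hb true true with h1 | h1 | ⟨i, hi, h1⟩
      · rw [inS_pf (mem45 (Or.inl rfl) hb), part_pos (by norm_num), Fin.ext_iff] at h1
        simp [h4] at h1
      · rw [inS_pf (mem45 (Or.inr rfl) hb), part_pos (by norm_num), Fin.ext_iff] at h1
        simp [h4] at h1
      · rw [hasE_iff hb, e3] at hi
        simp only [List.mem_cons, List.not_mem_nil, or_false] at hi
        rcases hi with rfl | rfl | rfl | rfl
        all_goals
          rw [inS_pf (mem0 (by omega)), Fin.ext_iff] at h1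
          simp [part, h4] at h1
    · have h6 : (6, 0, false) ∈ labs (m + 8) (E ++ extra m) := by rw [mem_labs]; simp [Valid]
      rcases h.1 6 0 (by norm_num) h6 with h1 | h1
      · rw [inS_pf h6, part_pos (by norm_num), Fin.ext_iff] at h1
        simp at h1
        omega
      · rw [inS_pf (valid_twin (by norm_num) h6), part_pos (by norm_num), Fin.ext_iff] at h1
        simp at h1
        omega

/-- A colouring gives a partition with eight parts. -/
theorem clge_of_col (hχ : TwoCol E χ) (hE : ∀ l ∈ E, ∀ i ∈ l, i < m) :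
    CLge (GG (m + 8) (E ++ extra m)) 8 := by
  have hn : 2 ≤ m + 8 := by omega
  have hld : ∀ c : Bool, ∀ j : Fin 8,
      (if c then j.1 = 1 ∨ j.1 = 2 ∨ j.1 = 3 else j.1 = 5 ∨ j.1 = 6 ∨ j.1 = 7) →
      IsLD (GG (m + 8) (E ++ extra m)) (pf m E χ ⁻¹' {if c then 0 else 4} ∪ pf m E χ ⁻¹' {j}) :=
    fun c j hj => (isLD_iff hn).2 (good_union hχ hE c j hj)
  have hnot : ∀ j : Fin 8, ¬ IsLD (GG (m + 8) (E ++ extra m)) (pf m E χ ⁻¹' {j}) :=
    fun j h => not_good j ((isLD_iff hn).1 h)
  refine ⟨8, le_refl _, pf m E χ, ?_, fun i => ⟨hnot i, ?_⟩⟩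
  · intro i
    have h6 : (6, 0, false) ∈ labs (m + 8) (E ++ extra m) := by rw [mem_labs]; simp [Valid]
    have h6' : (6, 0, true) ∈ labs (m + 8) (E ++ extra m) := by rw [mem_labs]; simp [Valid]
    fin_cases i
    · exact ⟨⟨_, h6'⟩, by simp [pf, part]⟩
    · exact ⟨⟨_, mem0 (i := m) (by omega)⟩, by simp [pf, part]⟩
    · exact ⟨⟨_, mem0 (i := m + 1) (by omega)⟩, by simp [pf, part]⟩
    · exact ⟨⟨_, mem0 (i := m + 2) (by omega)⟩, by simp [pf, part]⟩
    · exact ⟨⟨_, h6⟩, by simp [pf, part]⟩
    · exact ⟨⟨_, mem0 (i := m + 4) (by omega)⟩, by simp [pf, part]⟩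
    · exact ⟨⟨_, mem0 (i := m + 5) (by omega)⟩, by simp [pf, part]⟩
    · exact ⟨⟨_, mem0 (i := m + 6) (by omega)⟩, by simp [pf, part]⟩
  · have key : ∀ (c : Bool) (j : Fin 8),
        (if c then j.1 = 1 ∨ j.1 = 2 ∨ j.1 = 3 else j.1 = 5 ∨ j.1 = 6 ∨ j.1 = 7) →
        Coalition (GG (m + 8) (E ++ extra m)) (pf m E χ ⁻¹' {if c then 0 else 4})
          (pf m E χ ⁻¹' {j}) := fun c j hj => ⟨hnot _, hnot _, hld c j hj⟩
    have key' : ∀ (c : Bool) (j : Fin 8),
        (if c then j.1 = 1 ∨ j.1 = 2 ∨ j.1 = 3 else j.1 = 5 ∨ j.1 = 6 ∨ j.1 = 7) →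
        Coalition (GG (m + 8) (E ++ extra m)) (pf m E χ ⁻¹' {j})
          (pf m E χ ⁻¹' {if c then 0 else 4}) := fun c j hj =>
      ⟨hnot _, hnot _, by rw [Set.union_comm]; exact hld c j hj⟩
    fin_cases i
    · exact ⟨1, by decide, key true 1 (by simp)⟩
    · exact ⟨0, by decide, key' true 1 (by simp)⟩
    · exact ⟨0, by decide, key' true 2 (by simp)⟩
    · exact ⟨0, by decide, key' true 3 (by simp)⟩
    · exact ⟨5, by decide, key false 5 (by simp)⟩
    · exact ⟨4, by decide, key' false 5 (by simp)⟩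
    · exact ⟨4, by decide, key' false 6 (by simp)⟩
    · exact ⟨4, by decide, key' false 7 (by simp)⟩

theorem small_extra (hE : Small m E) : Small (m + 8) (E ++ extra m) := by
  intro l hl
  rw [List.mem_append] at hl
  rcases hl with hl | hl
  · obtain ⟨h1, h2, h3⟩ := hE l hl
    exact ⟨h1, h2, fun i hi => by have := h3 i hi; omega⟩
  · simp only [extra, List.mem_cons, List.not_mem_nil, or_false] at hl
    rcases hl with rfl | rfl
    · refine ⟨by simp, by simp, fun i hi => ?_⟩
      simp only [List.mem_cons, List.not_mem_nil, or_false] at hi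
      omega
    · refine ⟨by simp, by simp, fun i hi => ?_⟩
      simp only [List.mem_cons, List.not_mem_nil, or_false] at hi
      omega

/-- **Partitions with eight parts and colourings.** -/
theorem clge_iff (hE : Small m E) : CLge (GG (m + 8) (E ++ extra m)) 8 ↔ ∃ χ, TwoCol E χ := by
  constructor
  · intro h
    obtain ⟨χ, hχ⟩ := col_of_clge (by omega) (small_extra hE) h
    exact ⟨χ, fun l hl => hχ l (by simp [hl])⟩
  · rintro ⟨χ, hχ⟩
    exact clge_of_col hχ (fun l hl => (hE l hl).2.2)

theorem connected' (hE : Small m E) : (GG (m + 8) (E ++ extra m)).Connected :=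
  connected (by omega) (small_extra hE)

end Pool.Agent.X248.LD
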